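import Pool.Agent.H32.GenA

open Pool.Agent.H32.Gen

theorem Pool.Agent.Results.MP_ecc06a_al.Counter.result :
    ∃ (G : Type) (_ : Group G) (_ : Finite G), Nat.card G = 4032 ∧
      Odd (Nat.card (ceil (∅ : Set G))) ∧ defi (ceil (∅ : Set G) : Set G) = 2 ∧
      ∀ L : Subgroup G, Opt (ceil ∅) L → ¬ (Even (Nat.card L) ∧ defi (L : Set G) = 1) := by
  classical
  have le_max : ∀ (P : Set GG) (M : Subgroup GG), IsCoatom M → P ⊆ M → ceil P ≤ M :=
    fun P M h1 h2 => sInf_le ⟨h1, h2⟩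
  have sub : ∀ P : Set GG, P ⊆ ceil P := fun P x hx => by
    simp only [ceil, SetLike.mem_coe, Subgroup.mem_sInf]
    exact fun M hM => hM.2 hx
  have odd : ∀ (L : Subgroup GG) (x : F), L ≤ St x → Odd (Nat.card L) := fun L x h =>
    Odd.of_dvd_nat (by rw [card_St]; decide) (Subgroup.card_dvd_of_le h)
  have big : ∀ (S : Set GG), (∀ M : Subgroup GG, IsCoatom M → (∀ t : GG, t.h = 1 → t ∈ M) → S ⊆ M) →
      ∀ Q : Finset GG, Subgroup.closure (S ∪ Q) = ⊤ → 2 ≤ Q.card := by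
    intro S hS Q hQ
    by_contra hlt
    obtain ⟨g, hg⟩ : ∃ g, Q ⊆ {g} := Finset.card_le_one_iff_subset_singleton.1 (by omega)
    obtain ⟨M, hM, hgM, ht⟩ := ex_max g
    refine hM.1 (eq_top_iff.2 (hQ ▸ (Subgroup.closure_le _).2 (Set.union_subset (hS M hM ht) ?_)))
    intro y hy
    rw [Finset.mem_singleton.1 (hg hy)]; exact hgM
  have two : ∀ S : Set GG, ∃ Q : Finset GG, Q.card ≤ 2 ∧ Subgroup.closure (S ∪ Q) = ⊤ := fun S =>
    ⟨{ga, gb}, Finset.card_le_two, eq_top_iff.2 (gen2 ▸ Subgroup.closure_mono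
      (by rw [Finset.coe_pair]; exact Set.subset_union_right))⟩
  have d2 : ∀ S : Set GG, (∀ M : Subgroup GG, IsCoatom M → (∀ t : GG, t.h = 1 → t ∈ M) → S ⊆ M) →
      defi S = 2 := by
    intro S hS
    obtain ⟨Q, h1, h2⟩ := two S
    refine le_antisymm ((Nat.sInf_le
      (s := {n | ∃ Q : Finset GG, Q.card = n ∧ Subgroup.closure (S ∪ Q) = ⊤}) ⟨Q, rfl, h2⟩).trans h1) ?_
    obtain ⟨Q', h3, h4⟩ := Nat.sInf_mem
      (s := {n | ∃ Q : Finset GG, Q.card = n ∧ Subgroup.closure (S ∪ Q) = ⊤}) ⟨_, Q, rfl, h2⟩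
    exact (big S hS Q' h4).trans h3.le
  refine ⟨GG, inferInstance, inferInstance, card_G,
    odd _ 0 (le_max _ _ (coatom 0) (Set.empty_subset _)),
    d2 _ fun M hM _ => le_max _ _ hM (Set.empty_subset _), ?_⟩
  rintro L ⟨P, g, hP, -, -, rfl⟩ ⟨he, hd⟩
  have hPM : ∀ M : Subgroup GG, IsCoatom M → P ⊆ M := fun M hM =>
    (sub P).trans (hP ▸ le_max _ _ hM (Set.empty_subset _))
  by_cases hg : g.h = 1
  · rw [d2 _ fun M hM ht => le_max _ _ hM (Set.insert_subset (ht g hg) (hPM M hM))] at hd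
    omega
  · obtain ⟨x, hx⟩ := fixes g hg
    exact Nat.not_even_iff_odd.2
      (odd _ x (le_max _ _ (coatom x) (Set.insert_subset hx (hPM _ (coatom x))))) he
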